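import Pool.Agent.Helper61.ZD.Psd
import Pool.Graph.R_seed8.R867.H.Rand5

/-!
# From weak approximation to affine points
-/

set_option autoImplicit false

namespace Pool.ZD

open MvPolynomial Pool.Agent.R867.H Pool.Agent.Y716.M

variable {r : ℕ} {n d : Fin r → ℕ} {N : ℕ} (ε : (Σ i : Fin r, Fin (n i)) ≃ Fin N)

theorem near {A B y η m : ℝ} (hm : 1 ≤ m) (hη : η ≤ 1 / (4 * m ^ 2)) (hA : |1 - A| ≤ η)
    (hB : |y - B| ≤ η) (hy : |y| ≤ m) : A ≠ 0 ∧ |B / A - y| ≤ 1 / m := by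
  have hm0 : 0 < m := by linarith
  have h4 : (1 : ℝ) / (4 * m ^ 2) ≤ 1 / 4 := by
    apply one_div_le_one_div_of_le (by norm_num)
    nlinarith
  have hη0 : 0 ≤ η := (abs_nonneg _).trans hA
  have hA1 := abs_le.1 hA
  have hA2 : 1 / 2 ≤ A := by linarith [hA1.2]
  have hApos : 0 < A := by linarith
  refine ⟨hApos.ne', ?_⟩
  have h1 : B / A - y = ((B - y) + y * (1 - A)) / A := by
    field_simp
    ring
  rw [h1, abs_div, abs_of_pos hApos, div_le_iff₀ hApos]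
  have h2 : |(B - y) + y * (1 - A)| ≤ η + m * η := by
    refine (abs_add_le _ _).trans ?_
    rw [abs_mul, abs_sub_comm B y]
    exact add_le_add hB (mul_le_mul hy hA (abs_nonneg _) hm0.le)
  refine h2.trans ?_
  have h3 : η + m * η ≤ 2 * m * η := by nlinarith
  have h5 : 2 * m * η ≤ 2 * m * (1 / (4 * m ^ 2)) := by
    apply mul_le_mul_of_nonneg_left hη
    positivity
  have h6 : 2 * m * (1 / (4 * m ^ 2)) = 1 / m * (1 / 2) := by
    field_simp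
    ring
  calc η + m * η ≤ 1 / m * (1 / 2) := by rw [← h6]; exact h3.trans h5
    _ ≤ 1 / m * A := by
      apply mul_le_mul_of_nonneg_left hA2
      positivity

theorem real_step {f : MvPolynomial (Var n) ℤ} (hf : ∀ s ∈ f.support, ∀ i : Fin r,
    ∑ j : Fin (n i + 1), s ⟨i, j⟩ = d i) (hels : ElsB f) {M : ℕ} (hwa : WeakApproxM M f)
    {m : ℕ} (hm : 0 < m) (hM : 4 * m ^ 3 ≤ M) (y : Fin N → ℝ) (hy : ∀ l, |y l| ≤ m)
    (h0 : eval y (af ε d f ℝ) = 0) :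
    ∃ x : Fin N → ℚ, (∀ l, |(x l : ℝ) - y l| ≤ 1 / m) ∧ eval x (af ε d f ℚ) = 0 := by
  have hm1 : (1 : ℝ) ≤ m := by exact_mod_cast hm
  have hM0 : (0 : ℝ) < M := by
    have : 0 < M := lt_of_lt_of_le (by positivity) hM
    exact_mod_cast this
  have hz := hels.2
  choose z hz1 hz2 using hz
  have hblk : ∀ i : Fin r, bl (hat ε y : Var n → ℝ) i ≠ 0 := by
    intro i h
    have h1 := congrFun h 0
    exact one_ne_zero h1
  have hay : aeval (hat ε y : Var n → ℝ) f = 0 := by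
    rw [aeval_hat ε hf (L := ℝ) y, ← h0]
    rfl
  obtain ⟨x, hx1, hx2, -, hx3⟩ := hwa (fun p _ => z p) (hat ε y)
    (fun p _ => ⟨hz1 p, hz2 p⟩) hblk hay
  choose c hc0 hc using hx3
  have hnorm : ∀ i : Fin r, ‖bl (hat ε y : Var n → ℝ) i‖ ≤ m := by
    intro i
    rw [pi_norm_le_iff_of_nonneg (by linarith)]
    intro j
    refine Fin.cases ?_ (fun j => ?_) j
    · show ‖(1 : ℝ)‖ ≤ m
      rw [norm_one]
      exact hm1
    · exact hy _
  have hη : (m : ℝ) / M ≤ 1 / (4 * (m : ℝ) ^ 2) := by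
    rw [div_le_div_iff₀ hM0 (by positivity)]
    have h1 : (4 * (m : ℝ) ^ 3) ≤ M := by exact_mod_cast hM
    nlinarith
  have hclose : ∀ (i : Fin r) (j : Fin (n i + 1)),
      |hat ε y (⟨i, j⟩ : Var n) - c i * (x ⟨i, j⟩ : ℝ)| ≤ (m : ℝ) / M := by
    intro i j
    refine (hc i j).trans ?_
    exact div_le_div_of_nonneg_right (hnorm i) hM0.le
  have key : ∀ a : Σ i : Fin r, Fin (n i), (x ⟨a.1, 0⟩ : ℝ) ≠ 0 ∧
      |(x ⟨a.1, a.2.succ⟩ : ℝ) / (x ⟨a.1, 0⟩ : ℝ) - y (ε a)| ≤ 1 / m := by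
    intro a
    obtain ⟨h1, h2⟩ := near hm1 hη (hclose a.1 0) (hclose a.1 a.2.succ) (hy _)
    have h3 : (x ⟨a.1, 0⟩ : ℝ) ≠ 0 := right_ne_zero_of_mul h1
    refine ⟨h3, ?_⟩
    rwa [mul_div_mul_left _ _ (hc0 a.1)] at h2
  have hx0 : ∀ i : Fin r, x ⟨i, 0⟩ ≠ 0 := by
    intro i
    have h4 : (1 : ℝ) / (4 * (m : ℝ) ^ 2) ≤ 1 / 4 := by
      apply one_div_le_one_div_of_le (by norm_num)
      nlinarith
    have h1 := hclose i 0
    rw [hat_zero] at h1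
    intro h2
    rw [h2] at h1
    have h3 : |(1 : ℝ)| ≤ (m : ℝ) / M := by
      simpa using h1
    rw [abs_one] at h3
    linarith
  obtain ⟨u₀, hu₀⟩ : ∃ u₀ : (Σ i : Fin r, Fin (n i)) → ℚ,
      ∀ a, u₀ a = x ⟨a.1, a.2.succ⟩ / x ⟨a.1, 0⟩ := ⟨_, fun _ => rfl⟩
  have hu : ∀ a, u₀ (ε.symm (ε a)) = x ⟨a.1, a.2.succ⟩ / x ⟨a.1, 0⟩ := by
    intro a
    rw [ε.symm_apply_apply, hu₀]
  refine ⟨fun l => u₀ (ε.symm l), ?_, ?_⟩
  · intro l
    obtain ⟨a, rfl⟩ := ε.surjective l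
    have h1 := (key a).2
    show |((u₀ (ε.symm (ε a)) : ℚ) : ℝ) - y (ε a)| ≤ 1 / m
    rw [hu]
    push_cast
    exact h1
  · have h1 : (hat ε (fun l => u₀ (ε.symm l)) :
        Var n → ℚ) = fun a => (fun i => (x ⟨i, 0⟩)⁻¹) a.1 * x a := by
      funext a
      obtain ⟨i, j⟩ := a
      refine Fin.cases ?_ (fun j => ?_) j
      · rw [hat_zero]
        exact (inv_mul_cancel₀ (hx0 i)).symm
      · rw [hat_succ, hu]
        rw [div_eq_inv_mul]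
    have h2 := aeval_hat ε hf (L := ℚ) (fun l => u₀ (ε.symm l))
    rw [h1, Pool.Agent.Y362.MH.aeval_block f hf (fun i => (x ⟨i, 0⟩)⁻¹) x, hx2, mul_zero] at h2
    exact h2.symm

end Pool.ZD
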