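import Pool.Agent.Helper61.ZD.Asm1

/-!
# From the affine equation to the multihomogeneous form
-/

set_option autoImplicit false

namespace Pool.ZD

open MvPolynomial Pool.Agent.R867.H Pool.Agent.Y716.M

variable {r : ℕ} {n d : Fin r → ℕ} {N : ℕ} (ε : (Σ i : Fin r, Fin (n i)) ≃ Fin N)

/-- no hypersurface of degree at most `D` contains the rational points -/
def DegDense {r : ℕ} {n : Fin r → ℕ} (D : ℕ) (f : MvPolynomial (Var n) ℤ) : Prop :=
  ∀ G : MvPolynomial (Var n) ℝ, G.totalDegree ≤ D →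
    (∀ x : Var n → ℚ, (∀ i : Fin r, bl x i ≠ 0) → aeval x f = 0 →
      eval (fun a => (x a : ℝ)) G = 0) →
    MvPolynomial.map (Int.castRingHom ℝ) f ∣ G

/-- the coefficients have degree at most `t` -/
def CDeg {r N : ℕ} (p : MvPolynomial (Fin r) (MvPolynomial (Fin N) ℝ)) (t : ℕ) : Prop :=
  ∀ e, (coeff e p).totalDegree ≤ t

theorem CDeg.mono {r N : ℕ} {p : MvPolynomial (Fin r) (MvPolynomial (Fin N) ℝ)} {t t' : ℕ}
    (h : CDeg p t) (htt : t ≤ t') : CDeg p t' := fun e => (h e).trans htt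

theorem CDeg.mul {r N : ℕ} {p q : MvPolynomial (Fin r) (MvPolynomial (Fin N) ℝ)} {t t' : ℕ}
    (hp : CDeg p t) (hq : CDeg q t') : CDeg (p * q) (t + t') := by
  classical
  intro e
  rw [coeff_mul]
  refine (totalDegree_finset_sum _ _).trans (Finset.sup_le fun x _ => ?_)
  exact (totalDegree_mul _ _).trans (add_le_add (hp _) (hq _))

theorem CDeg.sum {r N : ℕ} {ι : Type} (s : Finset ι)
    {p : ι → MvPolynomial (Fin r) (MvPolynomial (Fin N) ℝ)} {t : ℕ}
    (hp : ∀ i ∈ s, CDeg (p i) t) : CDeg (∑ i ∈ s, p i) t := by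
  classical
  intro e
  rw [coeff_sum]
  exact (totalDegree_finset_sum _ _).trans (Finset.sup_le fun x hx => hp x hx e)

theorem CDeg.one {r N : ℕ} : CDeg (1 : MvPolynomial (Fin r) (MvPolynomial (Fin N) ℝ)) 0 := by
  classical
  intro e
  rw [coeff_one]
  split_ifs <;> simp

theorem CDeg.pow {r N : ℕ} {p : MvPolynomial (Fin r) (MvPolynomial (Fin N) ℝ)}
    (hp : CDeg p 1) (k : ℕ) : CDeg (p ^ k) k := by
  induction k with
  | zero => rw [pow_zero]; exact CDeg.one
  | succ k ih => rw [pow_succ]; exact ih.mul hp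

theorem CDeg.prod {r N : ℕ} {ι : Type} (s : Finset ι)
    {p : ι → MvPolynomial (Fin r) (MvPolynomial (Fin N) ℝ)} {t : ι → ℕ}
    (hp : ∀ i ∈ s, CDeg (p i) (t i)) : CDeg (∏ i ∈ s, p i) (∑ i ∈ s, t i) := by
  classical
  induction s using Finset.induction_on with
  | empty => rw [Finset.prod_empty, Finset.sum_empty]; exact CDeg.one
  | insert a s ha ih =>
    rw [Finset.prod_insert ha, Finset.sum_insert ha]
    exact (hp a (Finset.mem_insert_self a s)).mul
      (ih fun i hi => hp i (Finset.mem_insert_of_mem hi))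

theorem cdeg_thh (G : MvPolynomial (Var n) ℝ) : CDeg (thh ε ℝ G) G.totalDegree := by
  classical
  have h0 : ∀ a : Var n, CDeg (thh ε ℝ (X a : MvPolynomial (Var n) ℝ)) 1 := by
    intro a e
    rw [thh_X, mul_comm, coeff_C_mul]
    refine (totalDegree_mul _ _).trans ?_
    have h1 : (hat ε (fun l => (X l : MvPolynomial (Fin N) ℝ)) a).totalDegree ≤ 1 := by
      obtain ⟨i, j⟩ := a
      refine Fin.cases ?_ (fun j => ?_) j
      · rw [hat_zero]; simp
      · rw [hat_succ, totalDegree_X]
    have h2 : (coeff e (X a.1 : MvPolynomial (Fin r) (MvPolynomial (Fin N) ℝ))).totalDegree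
        = 0 := by
      rw [coeff_X']
      split_ifs <;> simp
    omega
  have h1 : thh ε ℝ G = ∑ s ∈ G.support, thh ε ℝ (monomial s (coeff s G)) := by
    conv_lhs => rw [G.as_sum, map_sum]
  rw [h1]
  refine CDeg.sum _ fun s hs => ?_
  have h2 : thh ε ℝ (monomial s (coeff s G)) =
      C (C (coeff s G)) * ∏ a ∈ s.support, thh ε ℝ (X a : MvPolynomial (Var n) ℝ) ^ s a := by
    rw [monomial_eq, map_mul, Finsupp.prod, map_prod]
    congr 1
    · unfold thh
      rw [aeval_C]
      rfl
    · exact Finset.prod_congr rfl fun a _ => map_pow _ _ _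
  rw [h2]
  have h3 : CDeg (C (C (coeff s G)) : MvPolynomial (Fin r) (MvPolynomial (Fin N) ℝ)) 0 := by
    intro e
    rw [coeff_C]
    split_ifs <;> simp
  refine ((h3.mul (CDeg.prod _ fun a _ => (h0 a).pow (s a))).mono ?_)
  rw [zero_add]
  exact le_totalDegree hs

theorem eval_thh (G : MvPolynomial (Var n) ℝ) (t : Fin r → ℝ) (u : Fin N → ℝ) :
    eval t (MvPolynomial.map (eval u) (thh ε ℝ G)) =
      eval (fun a => t a.1 * hat ε u a) G := by
  have h : ((eval t).comp (MvPolynomial.map (eval u))).comp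
      (thh ε ℝ (n := n)).toRingHom = eval (fun a : Var n => t a.1 * hat ε u a) := by
    apply MvPolynomial.ringHom_ext
    · intro a
      rw [RingHom.comp_apply]
      change eval t (MvPolynomial.map (eval u) (thh ε ℝ (C a))) = eval _ (C a)
      have h2 : thh ε ℝ (C a : MvPolynomial (Var n) ℝ) = C (C a) := by
        unfold thh
        rw [aeval_C]
        rfl
      rw [h2, map_C, eval_C, eval_C, eval_C]
    · intro a
      rw [RingHom.comp_apply]
      change eval t (MvPolynomial.map (eval u) (thh ε ℝ (X a))) = eval _ (X a)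
      rw [thh_X, map_mul, map_mul, map_X, map_C, eval_X, eval_C, eval_X]
      congr 1
      obtain ⟨i, j⟩ := a
      refine Fin.cases ?_ (fun j => ?_) j
      · rw [hat_zero, hat_zero]
        exact map_one _
      · rw [hat_succ, hat_succ, eval_X]
  exact congrArg (fun φ : MvPolynomial (Var n) ℝ →+* ℝ => φ G) h

theorem cone_step {f : MvPolynomial (Var n) ℤ} (hf : ∀ s ∈ f.support, ∀ i : Fin r,
    ∑ j : Fin (n i + 1), s ⟨i, j⟩ = d i)
    (hnd : ∀ i : Fin r, ¬ (X ⟨i, 0⟩ : MvPolynomial (Var n) ℝ) ∣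
      MvPolynomial.map (Int.castRingHom ℝ) f) (D : ℕ)
    (h : ∀ g : MvPolynomial (Fin N) ℝ, g.totalDegree ≤ D →
      (∀ x : Fin N → ℚ, eval x (af ε d f ℚ) = 0 → eval (fun l => (x l : ℝ)) g = 0) →
      af ε d f ℝ ∣ g) : DegDense D f := by
  intro G hG hv
  apply dvd_of_thh ε hf hnd
  rw [C_dvd_iff_dvd_coeff]
  intro e
  refine h _ ((cdeg_thh ε G e).trans hG) ?_
  intro u hu
  have hw : MvPolynomial.map (eval (fun l => (u l : ℝ))) (thh ε ℝ G) = 0 := by
    refine MvPolynomial.funext_set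
      (fun _ : Fin r => (fun q : ℚ => (q : ℝ)) '' {q : ℚ | q ≠ 0}) (fun _ => ?_) ?_
    · apply Set.Infinite.image
      · exact fun a _ b _ hab => Rat.cast_injective hab
      · have h1 : {q : ℚ | q ≠ 0} = {0}ᶜ := by
          ext q; simp
        rw [h1]
        exact (Set.finite_singleton (0 : ℚ)).infinite_compl
    · intro t ht
      rw [map_zero]
      have h1 : ∀ i, ∃ q : ℚ, q ≠ 0 ∧ (q : ℝ) = t i := fun i => ht i (Set.mem_univ i)
      choose q hq0 hq using h1
      have h2 : t = fun i => (q i : ℝ) := funext fun i => (hq i).symm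
      rw [h2, eval_thh]
      have h3 := hv (fun a => q a.1 * hat ε u a) (by
        intro i h4
        have h5 := congrFun h4 0
        have h6 : q i * hat ε u (⟨i, 0⟩ : Var n) = 0 := h5
        rw [hat_zero, mul_one] at h6
        exact hq0 i h6) (by
        rw [Pool.Agent.Y362.MH.aeval_block f hf q (hat ε u), aeval_hat ε hf (L := ℚ) u]
        have h4 : aeval u (af ε d f ℚ) = 0 := hu
        rw [h4, mul_zero])
      rw [← h3]
      congr 1
      congr 1
      funext a
      obtain ⟨i, j⟩ := a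
      refine Fin.cases ?_ (fun j => ?_) j
      · rw [hat_zero, hat_zero]; push_cast; rfl
      · rw [hat_succ, hat_succ]; push_cast; rfl
  have h1 := congrArg (coeff e) hw
  rw [coeff_map, coeff_zero] at h1
  exact h1

end Pool.ZD
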