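import Pool.Agent.Helper61.ZD.Asm2

/-!
# Forms in the interior of the cone of the nonnegative forms have no zeros
-/

set_option autoImplicit false

namespace Pool.ZD

open MvPolynomial Pool.Agent.R867.H Pool.Agent.Y716.M

variable {r : ℕ} {n d : Fin r → ℕ} {N : ℕ} (ε : (Σ i : Fin r, Fin (n i)) ≃ Fin N)

/-- the exponent of the product of the powers of one variable of each block -/
noncomputable def corner (d : Fin r → ℕ) (J : ∀ i : Fin r, Fin (n i + 1)) : Fin N →₀ ℕ :=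
  dm ε (Finsupp.equivFunOnFinite.symm fun a : Var n => if a.2 = J a.1 then d a.1 else 0)

theorem corner_mem (J : ∀ i : Fin r, Fin (n i + 1)) : corner ε d J ∈ expo (bet ε) d := by
  classical
  apply dm_mem
  rw [mem_monsM]
  intro i
  simp only [Finsupp.equivFunOnFinite_symm_apply_apply]
  rw [Finset.sum_ite_eq' Finset.univ (J i), if_pos (Finset.mem_univ _)]

theorem corner_eval (J : ∀ i : Fin r, Fin (n i + 1)) (y : Var n → ℝ) (u : Fin N → ℝ)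
    (hy : ∀ i, y ⟨i, 0⟩ ≠ 0) (hu : ∀ a : Σ i : Fin r, Fin (n i),
      u (ε a) = (y ⟨a.1, 0⟩)⁻¹ * y ⟨a.1, a.2.succ⟩) :
    (∏ i, y ⟨i, 0⟩ ^ d i) * eval u (monomial (corner ε d J) (1 : ℝ)) = ∏ i, y ⟨i, J i⟩ ^ d i := by
  classical
  have h1 : eval u (monomial (corner ε d J) (1 : ℝ)) =
      ∏ a : Σ i : Fin r, Fin (n i), u (ε a) ^ (corner ε d J (ε a)) := by
    rw [eval_monomial, one_mul, Finsupp.prod_fintype _ _ (fun _ => pow_zero _)]
    exact (Equiv.prod_comp ε fun l => u l ^ (corner ε d J l)).symm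
  rw [h1]
  have h2 : ∀ a : Σ i : Fin r, Fin (n i), corner ε d J (ε a) =
      if a.2.succ = J a.1 then d a.1 else 0 := by
    rintro ⟨i, j⟩
    unfold corner
    rw [dm_apply]
    rfl
  have h3 : ∏ a : Σ i : Fin r, Fin (n i), u (ε a) ^ (corner ε d J (ε a)) =
      ∏ i, ∏ j : Fin (n i), ((y ⟨i, 0⟩)⁻¹ * y ⟨i, j.succ⟩) ^
        (if j.succ = J i then d i else 0) := by
    rw [Fintype.prod_sigma]
    refine Finset.prod_congr rfl fun i _ => Finset.prod_congr rfl fun j _ => ?_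
    rw [h2, hu]
  rw [h3, ← Finset.prod_mul_distrib]
  refine Finset.prod_congr rfl fun i _ => ?_
  rcases Fin.eq_zero_or_eq_succ (J i) with h | ⟨j₀, h⟩
  · rw [h]
    have h4 : ∏ j : Fin (n i), ((y ⟨i, 0⟩)⁻¹ * y ⟨i, j.succ⟩) ^
        (if j.succ = 0 then d i else 0) = 1 := by
      refine Finset.prod_eq_one fun j _ => ?_
      rw [if_neg (Fin.succ_ne_zero j), pow_zero]
    rw [h4, mul_one]
  · rw [h]
    have h4 : ∏ j : Fin (n i), ((y ⟨i, 0⟩)⁻¹ * y ⟨i, j.succ⟩) ^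
        (if j.succ = j₀.succ then d i else 0) = ((y ⟨i, 0⟩)⁻¹ * y ⟨i, j₀.succ⟩) ^ d i := by
      rw [Finset.prod_eq_single j₀]
      · rw [if_pos rfl]
      · intro j _ hj
        rw [if_neg (fun h5 => hj (Fin.succ_injective _ h5)), pow_zero]
      · intro h5
        exact absurd (Finset.mem_univ _) h5
    rw [h4, ← mul_pow, ← mul_assoc, mul_inv_cancel₀ (hy i), one_mul]

theorem no_zero {f : MvPolynomial (Var n) ℤ} (hf : ∀ s ∈ f.support, ∀ i : Fin r,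
    ∑ j : Fin (n i + 1), s ⟨i, j⟩ = d i) {ε₀ : ℝ} (hε : 0 < ε₀)
    (h : ∀ m ∈ expo (bet ε) d, ∀ u : Fin N → ℝ,
      ε₀ * |eval u (monomial m (1 : ℝ))| ≤ |eval u (af ε d f ℝ)|)
    (y₀ : Var n → ℝ) (hy₀ : ∀ i : Fin r, bl y₀ i ≠ 0) : aeval y₀ f ≠ 0 := by
  classical
  have h1 : ∀ i : Fin r, ∃ j, y₀ ⟨i, j⟩ ≠ 0 := by
    intro i
    by_contra hcon
    push Not at hcon
    exact hy₀ i (funext hcon)
  choose J hJ using h1
  have key : ∀ y : Var n → ℝ, (∀ i, y ⟨i, 0⟩ ≠ 0) →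
      ε₀ * |∏ i, y ⟨i, J i⟩ ^ d i| ≤ |aeval y f| := by
    intro y hy
    obtain ⟨u₀, hu₀⟩ : ∃ u₀ : (Σ i : Fin r, Fin (n i)) → ℝ,
      ∀ a, u₀ a = (y ⟨a.1, 0⟩)⁻¹ * y ⟨a.1, a.2.succ⟩ := ⟨_, fun _ => rfl⟩
    obtain ⟨u, hu⟩ : ∃ u : Fin N → ℝ, ∀ l, u l = u₀ (ε.symm l) := ⟨_, fun _ => rfl⟩
    have hu' : ∀ a, u (ε a) = (y ⟨a.1, 0⟩)⁻¹ * y ⟨a.1, a.2.succ⟩ := by
      intro a
      rw [hu, ε.symm_apply_apply, hu₀]
    have h2 := h _ (corner_mem (d := d) ε J) u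
    have h3 := corner_eval (d := d) ε J y u hy hu'
    have h4 : aeval y f = (∏ i, y ⟨i, 0⟩ ^ d i) * eval u (af ε d f ℝ) := by
      have h5 : y = fun a => (fun i => y ⟨i, 0⟩) a.1 * hat ε u a := by
        funext a
        obtain ⟨i, j⟩ := a
        refine Fin.cases ?_ (fun j => ?_) j
        · rw [hat_zero, mul_one]
        · rw [hat_succ, hu']
          show y ⟨i, j.succ⟩ = y ⟨i, 0⟩ * ((y ⟨i, 0⟩)⁻¹ * y ⟨i, j.succ⟩)
          rw [← mul_assoc, mul_inv_cancel₀ (hy i), one_mul]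
      conv_lhs => rw [h5]
      rw [Pool.Agent.Y362.MH.aeval_block f hf (fun i => y ⟨i, 0⟩) (hat ε u),
        aeval_hat ε hf (L := ℝ) u]
      rfl
    rw [← h3, h4, abs_mul, abs_mul]
    have h6 := mul_le_mul_of_nonneg_left h2 (abs_nonneg (∏ i, y ⟨i, 0⟩ ^ d i))
    calc ε₀ * (|∏ i, y ⟨i, 0⟩ ^ d i| * |eval u (monomial (corner ε d J) (1 : ℝ))|)
        = |∏ i, y ⟨i, 0⟩ ^ d i| * (ε₀ * |eval u (monomial (corner ε d J) (1 : ℝ))|) := by ring
      _ ≤ _ := h6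
  obtain ⟨Y, hY⟩ : ∃ Y : ℝ → Var n → ℝ,
    ∀ t a, Y t a = y₀ a + if a.2 = 0 ∧ y₀ a = 0 then t else 0 := ⟨_, fun _ _ => rfl⟩
  have hY0 : Y 0 = y₀ := by
    funext a
    rw [hY]
    simp
  have hYc : Continuous Y := by
    refine continuous_pi fun a => ?_
    have h2 : (fun t => Y t a) = fun t => y₀ a + if a.2 = 0 ∧ y₀ a = 0 then t else 0 :=
      funext fun t => hY t a
    rw [h2]
    split_ifs
    · fun_prop
    · fun_prop
  have hYne : ∀ t : ℝ, t ≠ 0 → ∀ i, Y t ⟨i, 0⟩ ≠ 0 := by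
    intro t ht i
    rw [hY]
    by_cases h2 : y₀ ⟨i, 0⟩ = 0
    · rw [if_pos ⟨rfl, h2⟩, h2, zero_add]
      exact ht
    · rw [if_neg (fun h3 => h2 h3.2), add_zero]
      exact h2
  have hc1 : Continuous fun t => ε₀ * |∏ i, Y t ⟨i, J i⟩ ^ d i| := by
    have h2 : ∀ a : Var n, Continuous fun t => Y t a := fun a => (continuous_apply a).comp hYc
    fun_prop
  have hc2 : Continuous fun t => |aeval (Y t) f| := by
    have h2 : (fun t => aeval (Y t) f) =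
        fun t => eval (Y t) (MvPolynomial.map (Int.castRingHom ℝ) f) := by
      funext t
      rw [eval_map, aeval_def]
      rfl
    have h3 : Continuous fun t => aeval (Y t) f := by
      rw [h2]
      exact (MvPolynomial.continuous_eval _).comp hYc
    exact h3.abs
  have h2 : ε₀ * |∏ i, Y 0 ⟨i, J i⟩ ^ d i| ≤ |aeval (Y 0) f| := by
    have t1 : Filter.Tendsto (fun t => ε₀ * |∏ i, Y t ⟨i, J i⟩ ^ d i|) (nhdsWithin 0 {0}ᶜ)
        (nhds (ε₀ * |∏ i, Y 0 ⟨i, J i⟩ ^ d i|)) := (hc1.tendsto 0).mono_left nhdsWithin_le_nhds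
    have t2 : Filter.Tendsto (fun t => |aeval (Y t) f|) (nhdsWithin 0 {0}ᶜ)
        (nhds (|aeval (Y 0) f|)) := (hc2.tendsto 0).mono_left nhdsWithin_le_nhds
    refine le_of_tendsto_of_tendsto t1 t2 ?_
    filter_upwards [self_mem_nhdsWithin] with t ht
    exact key (Y t) (hYne t ht)
  rw [hY0] at h2
  intro h3
  rw [h3, abs_zero] at h2
  have h4 : 0 < |∏ i, y₀ ⟨i, J i⟩ ^ d i| :=
    abs_pos.2 (Finset.prod_ne_zero_iff.2 fun i _ => pow_ne_zero _ (hJ i))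
  have h5 : 0 < ε₀ * |∏ i, y₀ ⟨i, J i⟩ ^ d i| := mul_pos hε h4
  linarith

end Pool.ZD
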