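import Pool.Agent.Helper61.ZD.Asm3
import Pool.Agent.Helper49.ZD.LAT
import Pool.Agent.Helper49.ZD.NullZeros
import Pool.Agent.Helper49.ZD.ALG
import Pool.Agent.Helper39.ZD.Cpt

/-!
# Almost all forms
-/

set_option autoImplicit false

namespace Pool.ZD

open MvPolynomial Pool.Agent.R867.H Pool.Agent.Y716.M

variable {r : ℕ} {n d : Fin r → ℕ}

theorem coeff_poly {N : ℕ} {E : Finset (Fin N →₀ ℕ)} (c : E → ℝ) (m : E) :
    coeff (m : Fin N →₀ ℕ) (poly c) = c m := by
  classical
  unfold poly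
  rw [coeff_sum, Finset.sum_eq_single m]
  · rw [coeff_monomial, if_pos rfl]
  · intro m' _ hm'
    rw [coeff_monomial, if_neg (fun h => hm' (Subtype.ext h))]
  · intro h
    exact absurd (Finset.mem_univ _) h

theorem support_poly {N : ℕ} {E : Finset (Fin N →₀ ℕ)} (c : E → ℝ) : (poly c).support ⊆ E := by
  classical
  intro m hm
  unfold poly at hm
  have h1 := MvPolynomial.support_sum hm
  rw [Finset.mem_biUnion] at h1
  obtain ⟨m', _, h2⟩ := h1
  have h3 := support_monomial_subset h2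
  rw [Finset.mem_singleton] at h3
  rw [h3]
  exact m'.2

theorem neg_poly {N : ℕ} {E : Finset (Fin N →₀ ℕ)} (c : E → ℝ) : poly (-c) = -poly c := by
  unfold poly
  rw [← Finset.sum_neg_distrib]
  refine Finset.sum_congr rfl fun m _ => ?_
  rw [Pi.neg_apply, map_neg]

theorem af_poly {N : ℕ} (ε : (Σ i : Fin r, Fin (n i)) ≃ Fin N) (f : MvPolynomial (Var n) ℤ)
    {H : ℕ} (hH : 0 < H) : af ε d f ℝ =
      C (H : ℝ) * poly (fun m : expo (bet ε) d => (cv ε d f m : ℝ) / H) := by
  classical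
  have hH' : (H : ℝ) ≠ 0 := by exact_mod_cast hH.ne'
  ext m
  rw [coeff_C_mul]
  by_cases hm : m ∈ expo (bet ε) d
  · rw [coeff_af ε f ℝ hm]
    have h1 := coeff_poly (fun m : expo (bet ε) d => (cv ε d f m : ℝ) / H) ⟨m, hm⟩
    simp only at h1
    rw [h1, mul_div_cancel₀ _ hH']
    rfl
  · rw [notMem_support_iff.mp (fun h => hm (af_support ε f ℝ h)),
      notMem_support_iff.mp (fun h => hm (support_poly _ h)), mul_zero]

open Classical in
theorem main (hn : ∀ i, 1 ≤ n i) (hd : ∀ i, 2 ≤ d i) (hdim : 2 ≤ ∑ i, n i)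
    (hwa : ∀ m : ℕ, 1 ≤ m → ∀ η : ℝ, 0 < η → ∃ H₀ : ℝ, ∀ H : ℝ, H₀ ≤ H →
      (((formsM n d H).filter (fun f => ¬ WeakApproxM m f)).card : ℝ) ≤
        η * (formsM n d H).card)
    (D : ℕ) {δ : ℝ} (hδ : 0 < δ) :
    ∃ H₀ : ℕ, ∀ H : ℕ, H₀ ≤ H →
      (((formsM n d (H : ℝ)).filter (fun f => ElsB f ∧ ¬ DegDense D f)).card : ℝ) ≤
        δ * (formsM n d (H : ℝ)).card := by
  obtain ⟨N, ⟨ε⟩⟩ : ∃ N, Nonempty ((Σ i : Fin r, Fin (n i)) ≃ Fin N) :=
    ⟨_, ⟨Fintype.equivFin _⟩⟩
  have hN : 2 ≤ N := by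
    have h1 : Fintype.card (Σ i : Fin r, Fin (n i)) = N := by
      rw [Fintype.card_congr ε, Fintype.card_fin]
    rw [Fintype.card_sigma] at h1
    simp only [Fintype.card_fin] at h1
    omega
  have hβ : Function.Surjective (bet ε) := fun i => ⟨ε ⟨i, ⟨0, hn i⟩⟩, bet_apply ε _⟩
  obtain ⟨Φq, hΦq0, hΦq⟩ := gen_irr.{0} (N := N) (β := bet ε) (d := d) hN hβ
    (fun i => by have := hd i; omega)
  -- the corner of the highest degree
  obtain ⟨J, hJ⟩ : ∃ J : ∀ i : Fin r, Fin (n i + 1), ∀ i, J i = (⟨0, hn i⟩ : Fin (n i)).succ :=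
    ⟨_, fun _ => rfl⟩
  obtain ⟨m₀, hm₀⟩ : ∃ m₀ : expo (bet ε) d, (m₀ : Fin N →₀ ℕ) = corner ε d J :=
    ⟨⟨_, corner_mem ε J⟩, rfl⟩
  have hsum : ∀ m : Fin N →₀ ℕ, (m.sum fun _ e => e) = ∑ i, bd (bet ε) i m := by
    intro m
    rw [Finsupp.sum_fintype _ _ (fun _ => rfl)]
    unfold bd
    rw [← Finset.sum_fiberwise Finset.univ (bet ε) m]
  have hdeg0 : ∀ i, bd (bet ε) i (corner ε d J) = d i := by
    intro i
    unfold corner
    rw [bd_dm]
    simp only [Finsupp.equivFunOnFinite_symm_apply_apply]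
    rw [Finset.sum_eq_single ⟨0, hn i⟩]
    · rw [hJ, if_pos rfl]
    · intro j _ hj
      rw [hJ, if_neg (fun h => hj (Fin.succ_injective _ h))]
    · intro h
      exact absurd (Finset.mem_univ _) h
  have hmax : ∀ m ∈ expo (bet ε) d,
      m.sum (fun _ e => e) ≤ (m₀ : Fin N →₀ ℕ).sum fun _ e => e := by
    intro m hm
    rw [hsum, hsum, hm₀]
    refine Finset.sum_le_sum fun i _ => ?_
    rw [hdeg0]
    exact mem_expo'.mp hm i
  -- the polynomial of the bad forms
  obtain ⟨Φ, hΦ⟩ : ∃ Φ : MvPolynomial (expo (bet ε) d) ℝ,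
    Φ = MvPolynomial.map (algebraMap ℚ ℝ) Φq * (X m₀ *
      ∏ i : Fin r, X ⟨_, single_mem' ε i ⟨0, hn i⟩⟩) := ⟨_, rfl⟩
  have hΦ0 : Φ ≠ 0 := by
    rw [hΦ]
    refine mul_ne_zero ?_ (mul_ne_zero (X_ne_zero _)
      (Finset.prod_ne_zero_iff.mpr fun i _ => X_ne_zero _))
    intro h
    exact hΦq0 (map_injective _ (algebraMap ℚ ℝ).injective (h.trans (map_zero _).symm))
  obtain ⟨P, hP⟩ : ∃ P, P = psd (expo (bet ε) d) := ⟨_, rfl⟩
  obtain ⟨hPc, hPf⟩ := psd_basic (expo (bet ε) d)
  rw [← hP] at hPc hPf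
  obtain ⟨A, hA⟩ : ∃ A : Set (expo (bet ε) d → ℝ), A = Metric.closedBall 0 1 ∩
    ({c | eval c Φ = 0} ∪ (frontier P ∪ (fun c => -c) ⁻¹' frontier P)) := ⟨_, rfl⟩
  have hAc : IsCompact A := by
    rw [hA]
    refine (isCompact_closedBall _ _).inter_right ?_
    refine IsClosed.union ?_ (isClosed_frontier.union (isClosed_frontier.preimage continuous_neg))
    exact isClosed_singleton.preimage (MvPolynomial.continuous_eval Φ)
  have hA0 : MeasureTheory.volume A = 0 := by
    refine MeasureTheory.measure_mono_null (t := {c | eval c Φ = 0} ∪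
      (frontier P ∪ (fun c => -c) ⁻¹' frontier P)) (by rw [hA]; exact Set.inter_subset_right) ?_
    refine MeasureTheory.measure_union_null (null_zeros Φ hΦ0)
      (MeasureTheory.measure_union_null hPf ?_)
    have h1 := MeasureTheory.Measure.measure_preimage_neg
      (MeasureTheory.volume : MeasureTheory.Measure (expo (bet ε) d → ℝ)) (frontier P)
    exact h1.trans hPf
  obtain ⟨δ', hδ', H₁, h1⟩ := lattice A hAc hA0 (δ / 2) (by positivity)
  obtain ⟨K, hK⟩ : ∃ K : Set (expo (bet ε) d → ℝ), K = Metric.closedBall 0 1 ∩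
    ((Metric.thickening δ' A)ᶜ ∩ ((interior P)ᶜ ∩ ((fun c => -c) ⁻¹' (interior P))ᶜ)) :=
    ⟨_, rfl⟩
  have hKc : IsCompact K := by
    rw [hK]
    refine (isCompact_closedBall _ _).inter_right ?_
    refine Metric.isOpen_thickening.isClosed_compl.inter
      (isOpen_interior.isClosed_compl.inter ?_)
    exact (isOpen_interior.preimage continuous_neg).isClosed_compl
  have hKA : ∀ c ∈ K, c ∉ A := by
    intro c hc hcA
    rw [hK] at hc
    exact hc.2.1 (Metric.self_subset_thickening hδ' A hcA)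
  have hKΦ : ∀ c ∈ K, eval c Φ ≠ 0 := by
    intro c hc h
    have h2 := hKA c hc
    rw [hA] at h2
    rw [hK] at hc
    exact h2 ⟨hc.1, Or.inl h⟩
  have hKirr : ∀ c ∈ K, Irreducible (poly c) := by
    intro c hc
    apply hΦq (poly c) (support_poly c)
    have h2 := hKΦ c hc
    rw [hΦ, map_mul] at h2
    have h3 := left_ne_zero_of_mul h2
    intro h4
    apply h3
    rw [eval_map]
    unfold sp at h4
    change aeval (fun m : expo (bet ε) d => coeff (m : Fin N →₀ ℕ) (poly c)) Φq = 0 at h4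
    have h5 : (fun m : expo (bet ε) d => coeff (m : Fin N →₀ ℕ) (poly c)) = c :=
      funext fun m => coeff_poly c m
    rw [h5, aeval_def] at h4
    exact h4
  have hnotin : ∀ c : expo (bet ε) d → ℝ, c ∉ frontier P → c ∉ interior P →
      ∃ y : Fin N → ℝ, eval y (poly c) < 0 := by
    intro c h2 h3
    by_contra hcon
    push Not at hcon
    have h4 : c ∈ P := by
      rw [hP]
      exact hcon
    exact h2 ⟨subset_closure h4, h3⟩
  have hKneg : ∀ c ∈ K, ∃ y : Fin N → ℝ, eval y (poly c) < 0 := by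
    intro c hc
    have h2 := hKA c hc
    rw [hA] at h2
    rw [hK] at hc
    exact hnotin c (fun h3 => h2 ⟨hc.1, Or.inr (Or.inl h3)⟩) hc.2.2.1
  have hKpos : ∀ c ∈ K, ∃ y : Fin N → ℝ, 0 < eval y (poly c) := by
    intro c hc
    have h2 := hKA c hc
    rw [hA] at h2
    rw [hK] at hc
    obtain ⟨y, hy⟩ := hnotin (-c) (fun h3 => h2 ⟨hc.1, Or.inr (Or.inr h3)⟩) hc.2.2.2
    refine ⟨y, ?_⟩
    rw [neg_poly, map_neg] at hy
    linarith
  have hKm : ∀ c ∈ K, c m₀ ≠ 0 := by
    intro c hc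
    have h2 := hKΦ c hc
    rw [hΦ, map_mul, map_mul, eval_X] at h2
    exact left_ne_zero_of_mul (right_ne_zero_of_mul h2)
  obtain ⟨m, hm, hmain⟩ := compact dvd_of_sgn (expo (bet ε) d) m₀ hmax D K hKc hKirr hKpos hKneg hKm
  obtain ⟨H₃, h3⟩ := hwa (4 * m ^ 3)
    (by
      have h2 : 0 < m ^ 3 := by positivity
      omega) (δ / 2) (by positivity)
  refine ⟨max 1 (max H₁ ⌈H₃⌉₊), fun H hH => ?_⟩
  have hH0 : 0 < H := lt_of_lt_of_le one_pos ((le_max_left _ _).trans hH)
  have hH1 : H₁ ≤ H := ((le_max_left _ _).trans (le_max_right _ _)).trans hH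
  have hH3 : H₃ ≤ (H : ℝ) := (Nat.le_ceil H₃).trans
    (by exact_mod_cast ((le_max_right _ _).trans (le_max_right _ _)).trans hH)
  have hHr : (0 : ℝ) < H := by exact_mod_cast hH0
  have k3 := h3 H hH3
  -- the good forms
  have good : ∀ f ∈ formsM n d (H : ℝ), ElsB f → WeakApproxM (4 * m ^ 3) f →
      (fun m : expo (bet ε) d => (cv ε d f m : ℝ) / H) ∉ Metric.thickening δ' A →
      DegDense D f := by
    intro f hf hels hwa hth
    have hf' := mem_formsM.mp hf
    have hf1 := hf'.1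
    obtain ⟨c, hc⟩ : ∃ c, c = fun m : expo (bet ε) d => (cv ε d f m : ℝ) / H := ⟨_, rfl⟩
    rw [← hc] at hth
    have haf : af ε d f ℝ = C (H : ℝ) * poly c := by
      rw [hc]
      exact af_poly ε f hH0
    have hball : c ∈ Metric.closedBall (0 : expo (bet ε) d → ℝ) 1 := by
      rw [mem_closedBall_zero_iff, pi_norm_le_iff_of_nonneg zero_le_one]
      intro m
      have h2 : |cv ε d f m| ≤ (H : ℤ) := (Pool.Agent.Y77.M9.isM_iff_int.mp hf').2 _
      have h4 : |((cv ε d f m : ℤ) : ℝ)| ≤ H := by exact_mod_cast h2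
      rw [hc, Real.norm_eq_abs, abs_div, abs_of_pos hHr, div_le_one hHr]
      exact h4
    have hreal := hels.1
    obtain ⟨y₀, hy₀, hy₀f⟩ := hreal
    have hint : ∀ s : ℝ, |s| = 1 → (s • c) ∉ interior P := by
      intro s hs hin
      rw [hP] at hin
      obtain ⟨ε₀, hε₀, h2⟩ := interior_bound _ _ hin
      refine no_zero ε hf1 (ε₀ := H * ε₀) (by positivity) ?_ y₀ hy₀ hy₀f
      intro m hm' u
      have h4 := h2 ⟨m, hm'⟩ u
      have h5 : eval u (poly (s • c)) = s * eval u (poly c) := by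
        rw [eval_poly, eval_poly, Finset.mul_sum]
        refine Finset.sum_congr rfl fun m _ => ?_
        rw [Pi.smul_apply, smul_eq_mul, mul_assoc]
      rw [h5] at h4
      have h6 : s * eval u (poly c) ≤ |eval u (poly c)| := by
        refine (le_abs_self _).trans ?_
        rw [abs_mul, hs, one_mul]
      rw [haf, map_mul, eval_C, abs_mul, abs_of_pos hHr, mul_assoc]
      exact mul_le_mul_of_nonneg_left (h4.trans h6) hHr.le
    have hcK : c ∈ K := by
      rw [hK]
      refine ⟨hball, hth, ?_, ?_⟩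
      · have := hint 1 (by simp)
        rwa [one_smul] at this
      · have := hint (-1) (by simp)
        rw [neg_smul, one_smul] at this
        exact this
    refine cone_step ε hf1 (fun i => ?_) D (fun g hg hv => ?_)
    · apply not_dvd_of_coeff ε ⟨0, hn i⟩
      intro h0
      apply hKΦ c hcK
      rw [hΦ, map_mul, map_mul, map_prod]
      have h2 : ∏ i : Fin r, eval c (X (⟨_, single_mem' ε i ⟨0, hn i⟩⟩ :
          expo (bet ε) d)) = 0 := by
        apply Finset.prod_eq_zero (Finset.mem_univ i)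
        rw [eval_X, hc]
        simp only
        rw [h0]
        simp
      rw [h2, mul_zero, mul_zero]
    · have h2 : poly c ∣ g := by
        refine hmain c hcK g hg (fun y hy hy0 => ?_)
        have h4 : eval y (af ε d f ℝ) = 0 := by
          rw [haf, map_mul, hy0, mul_zero]
        obtain ⟨x, hx1, hx2⟩ := real_step ε hf1 hels hwa hm le_rfl y hy h4
        refine ⟨fun l => (x l : ℝ), hx1, ?_, hv x hx2⟩
        have h5 : eval (fun l => (x l : ℝ)) (af ε d f ℝ) = 0 := by
          have h6 : af ε d f ℝ = MvPolynomial.map (algebraMap ℚ ℝ) (af ε d f ℚ) := by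
            unfold af
            rw [map_sum]
            refine Finset.sum_congr rfl fun m _ => ?_
            rw [map_monomial]
            congr 1
          rw [h6, eval_map]
          have h7 := MvPolynomial.eval₂_comp_left (algebraMap ℚ ℝ) (RingHom.id ℚ) x (af ε d f ℚ)
          rw [RingHom.comp_id] at h7
          have h8 : (algebraMap ℚ ℝ) (eval₂ (RingHom.id ℚ) x (af ε d f ℚ)) = 0 := by
            have h9 : eval₂ (RingHom.id ℚ) x (af ε d f ℚ) = 0 := hx2
            rw [h9, map_zero]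
          rw [h8] at h7
          exact h7.symm
        rw [haf, map_mul, eval_C] at h5
        exact (mul_eq_zero.mp h5).resolve_left hHr.ne'
      obtain ⟨q, hq⟩ := h2
      refine ⟨C ((H : ℝ)⁻¹) * q, ?_⟩
      rw [haf, hq]
      have h4 : (C (H : ℝ) * C ((H : ℝ)⁻¹) : MvPolynomial (Fin N) ℝ) = 1 := by
        rw [← C_mul, mul_inv_cancel₀ hHr.ne', C_1]
      calc poly c * q = (C (H : ℝ) * C ((H : ℝ)⁻¹)) * (poly c * q) := by rw [h4, one_mul]
        _ = C (H : ℝ) * poly c * (C ((H : ℝ)⁻¹) * q) := by ring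
  have hsub : (formsM n d (H : ℝ)).filter (fun f => ElsB f ∧ ¬ DegDense D f) ⊆
      ((formsM n d (H : ℝ)).filter (fun f => ¬ WeakApproxM (4 * m ^ 3) f)) ∪
      ((formsM n d (H : ℝ)).filter (fun f =>
        (fun m : expo (bet ε) d => (cv ε d f m : ℝ) / H) ∈ Metric.thickening δ' A)) := by
    intro f hf
    rw [Finset.mem_filter] at hf
    obtain ⟨hf1, hels, hno⟩ := hf
    rw [Finset.mem_union, Finset.mem_filter, Finset.mem_filter]
    by_contra hcon
    push Not at hcon
    exact hno (good f hf1 hels (hcon.1 hf1) (hcon.2 hf1))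
  have e2 : (((formsM n d (H : ℝ)).filter (fun f =>
        (fun m : expo (bet ε) d => (cv ε d f m : ℝ) / H) ∈ Metric.thickening δ' A)).card : ℝ) ≤
      δ / 2 * (formsM n d (H : ℝ)).card := by
    have h4 := h1 H hH1 (((formsM n d (H : ℝ)).filter (fun f =>
        (fun m : expo (bet ε) d => (cv ε d f m : ℝ) / H) ∈ Metric.thickening δ' A)).image
        (cv ε d)) (by
      intro z hz
      obtain ⟨f, hf, rfl⟩ := Finset.mem_image.mp hz
      exact (Finset.mem_filter.mp hf).2)
    rw [Finset.card_image_of_injOn] at h4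
    · rw [card_forms_eq ε]
      exact h4
    · intro f hf f' hf' h
      have h5 := (mem_formsM.mp (Finset.mem_filter.mp (Finset.mem_coe.mp hf)).1).1
      have h6 := (mem_formsM.mp (Finset.mem_filter.mp (Finset.mem_coe.mp hf')).1).1
      exact cv_inj ε h5 h6 h
  have hc := (Finset.card_le_card hsub).trans (Finset.card_union_le _ _)
  have hc' := (Nat.cast_le (α := ℝ)).mpr hc
  push_cast at hc'
  have k3' : (((formsM n d (H : ℝ)).filter (fun f => ¬ WeakApproxM (4 * m ^ 3) f)).card : ℝ) ≤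
      δ / 2 * (formsM n d (H : ℝ)).card := by
    convert k3
  linarith

end Pool.ZD
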