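import Pool.Agent.Helper61.ZD.Asm4

/-!
# The degree tends to infinity
-/

set_option autoImplicit false

namespace Pool.ZD

open MvPolynomial Pool.Agent.R867.H Pool.Agent.Y716.M Filter

theorem diag (a : ℕ → ℕ → ℝ) (h : ∀ D, Tendsto (a D) atTop (nhds 1)) :
    ∃ D : ℕ → ℕ, Tendsto D atTop atTop ∧ Tendsto (fun H => a (D H) H) atTop (nhds 1) := by
  classical
  have h1 : ∀ D : ℕ, ∃ H₀ : ℕ, ∀ H, H₀ ≤ H → dist (a D H) 1 < 1 / ((D : ℝ) + 1) := by
    intro D
    exact Metric.tendsto_atTop.1 (h D) _ (by positivity)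
  choose F hF using h1
  obtain ⟨D, hD⟩ : ∃ D : ℕ → ℕ,
    ∀ H, D H = Nat.findGreatest (fun k => ∀ k' ≤ k, F k' ≤ H) H := ⟨_, fun _ => rfl⟩
  have hDt : Tendsto D atTop atTop := by
    rw [tendsto_atTop_atTop]
    intro k
    refine ⟨max k ((Finset.range (k + 1)).sup F), fun H hH => ?_⟩
    rw [hD]
    refine Nat.le_findGreatest ((le_max_left _ _).trans hH) (fun k' hk' => ?_)
    have h2 : F k' ≤ (Finset.range (k + 1)).sup F :=
      Finset.le_sup (Finset.mem_range.2 (by omega))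
    exact h2.trans ((le_max_right _ _).trans hH)
  refine ⟨D, hDt, ?_⟩
  rw [Metric.tendsto_atTop]
  intro δ hδ
  obtain ⟨k, hk⟩ := exists_nat_one_div_lt hδ
  obtain ⟨H₁, hH₁⟩ := (tendsto_atTop_atTop.1 hDt) k
  refine ⟨max H₁ (F 0), fun H hH => ?_⟩
  have h2 : k ≤ D H := hH₁ H ((le_max_left _ _).trans hH)
  have h3 : ∀ k' ≤ D H, F k' ≤ H := by
    rw [hD]
    exact Nat.findGreatest_spec (P := fun k => ∀ k' ≤ k, F k' ≤ H) (m := 0) (Nat.zero_le _)
      (fun k' hk' => by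
        rw [Nat.le_zero.1 hk']
        exact (le_max_right _ _).trans hH)
  have h4 := hF (D H) H (h3 _ le_rfl)
  refine h4.trans (lt_of_le_of_lt ?_ hk)
  apply one_div_le_one_div_of_le (by positivity)
  have : (k : ℝ) ≤ D H := by exact_mod_cast h2
  linarith

open Classical in
theorem tendsto_of {r : ℕ} {n d : Fin r → ℕ}
    (hpos : ∃ c : ℝ, 0 < c ∧ ∃ H₀ : ℝ, ∀ H : ℝ, H₀ ≤ H → c * ((formsM n d H).card : ℝ) ≤
      (((formsM n d H).filter (fun f => ElsB f)).card : ℝ))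
    (Good : MvPolynomial (Var n) ℤ → Prop)
    (h : ∀ δ : ℝ, 0 < δ → ∃ H₀ : ℕ, ∀ H : ℕ, H₀ ≤ H →
      (((formsM n d (H : ℝ)).filter (fun f => ElsB f ∧ ¬ Good f)).card : ℝ) ≤
        δ * (formsM n d (H : ℝ)).card) :
    Filter.Tendsto (fun H : ℕ =>
      (({f : MvPolynomial (Var n) ℤ | ((∀ s ∈ f.support, ∀ i : Fin r,
          ∑ j : Fin (n i + 1), s ⟨i, j⟩ = d i) ∧ ∀ s, |f.coeff s| ≤ (H : ℤ)) ∧ ElsB f ∧
          Good f} : Set _).ncard : ℝ) /
      (({f : MvPolynomial (Var n) ℤ | ((∀ s ∈ f.support, ∀ i : Fin r,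
          ∑ j : Fin (n i + 1), s ⟨i, j⟩ = d i) ∧ ∀ s, |f.coeff s| ≤ (H : ℤ)) ∧ ElsB f} :
          Set _).ncard : ℝ)) Filter.atTop (nhds 1) := by
  obtain ⟨c, hc0, H₁, hH₁⟩ := hpos
  rw [Metric.tendsto_atTop]
  intro δ hδ
  obtain ⟨H₂, hH₂⟩ := h (c * (δ / 2)) (by positivity)
  refine ⟨max ⌈H₁⌉₊ H₂, fun H hH => ?_⟩
  have hH1 : H₁ ≤ (H : ℝ) := (Nat.le_ceil H₁).trans
    (by exact_mod_cast (le_max_left _ _).trans hH)
  have h6 := hH₁ H hH1
  have h7 := hH₂ H ((le_max_right _ _).trans hH)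
  have hset1 : ({f : MvPolynomial (Var n) ℤ | ((∀ s ∈ f.support, ∀ i : Fin r,
          ∑ j : Fin (n i + 1), s ⟨i, j⟩ = d i) ∧ ∀ s, |f.coeff s| ≤ (H : ℤ)) ∧ ElsB f ∧
          Good f} : Set _).ncard =
      ((formsM n d (H : ℝ)).filter (fun f => ElsB f ∧ Good f)).card := by
    rw [← Pool.Agent.Y455.WAM.ncard_eq_filter'']
    congr 1
    ext f
    simp only [Set.mem_ofPred_eq, Pool.Agent.Y77.M9.isM_iff_int]
  have hset2 : ({f : MvPolynomial (Var n) ℤ | ((∀ s ∈ f.support, ∀ i : Fin r,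
          ∑ j : Fin (n i + 1), s ⟨i, j⟩ = d i) ∧ ∀ s, |f.coeff s| ≤ (H : ℤ)) ∧ ElsB f} :
          Set _).ncard =
      ((formsM n d (H : ℝ)).filter (fun f => ElsB f)).card := by
    rw [← Pool.Agent.Y455.WAM.ncard_eq_filter'']
    congr 1
    ext f
    simp only [Set.mem_ofPred_eq, Pool.Agent.Y77.M9.isM_iff_int]
  rw [hset1, hset2]
  obtain ⟨Fo, hFo⟩ : ∃ Fo, Fo = formsM n d (H : ℝ) := ⟨_, rfl⟩
  have hFo0 : (0:ℝ) < Fo.card := by
    rw [hFo]; exact_mod_cast card_formsM_pos (n := n) d (Nat.cast_nonneg H)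
  rw [← hFo] at h6 h7 ⊢
  obtain ⟨a, ha⟩ : ∃ a : ℝ, a = ((Fo.filter (fun f => ElsB f ∧ Good f)).card : ℝ) := ⟨_, rfl⟩
  obtain ⟨b, hb⟩ : ∃ b : ℝ, b = ((Fo.filter (fun f => ElsB f)).card : ℝ) := ⟨_, rfl⟩
  have hab' : a ≤ b := by
    rw [ha, hb]
    have : (Fo.filter (fun f => ElsB f ∧ Good f)) ⊆ (Fo.filter (fun f => ElsB f)) := by
      intro f hf
      rw [Finset.mem_filter] at hf ⊢
      exact ⟨hf.1, hf.2.1⟩
    exact_mod_cast Finset.card_le_card this
  have hcb : c * Fo.card ≤ b := by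
    rw [hb]
    exact h6
  have hba : b ≤ a + c * (δ / 2) * Fo.card := by
    have h10 : (Fo.filter (fun f => ElsB f)) ⊆
        (Fo.filter (fun f => ElsB f ∧ Good f)) ∪ (Fo.filter (fun f => ElsB f ∧ ¬ Good f)) := by
      intro f hf
      rw [Finset.mem_filter] at hf
      rw [Finset.mem_union, Finset.mem_filter, Finset.mem_filter]
      by_cases hw : Good f
      · left; exact ⟨hf.1, hf.2, hw⟩
      · right; exact ⟨hf.1, hf.2, hw⟩
    have h11 := (Finset.card_le_card h10).trans (Finset.card_union_le _ _)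
    have h12 : b ≤ a + ((Fo.filter (fun f => ElsB f ∧ ¬ Good f)).card : ℝ) := by
      rw [ha, hb]; exact_mod_cast h11
    linarith
  have hb0 : 0 < b := lt_of_lt_of_le (by positivity) hcb
  rw [← ha, ← hb, Real.dist_eq]
  have h13 : a / b - 1 = -((b - a) / b) := by field_simp; ring
  rw [h13, abs_neg, abs_of_nonneg (div_nonneg (by linarith) hb0.le), div_lt_iff₀ hb0]
  have h14 : c * (δ / 2) * Fo.card ≤ (δ / 2) * b := by
    have := mul_le_mul_of_nonneg_left hcb (by positivity : 0 ≤ δ / 2)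
    refine le_trans (le_of_eq ?_) this
    ring
  have h15 : 0 < δ * b := by positivity
  linarith

open Classical in
/-- the inputs for one block -/
theorem inputs_one (n d : Fin 1 → ℕ) (hn : 3 ≤ n 0) (hd : 2 ≤ d 0) (hdn : d 0 ≤ n 0) :
    (∃ c : ℝ, 0 < c ∧ ∃ H₀ : ℝ, ∀ H : ℝ, H₀ ≤ H → c * ((formsM n d H).card : ℝ) ≤
      (((formsM n d H).filter (fun f => ElsB f)).card : ℝ)) ∧
    ∀ m : ℕ, 1 ≤ m → ∀ η : ℝ, 0 < η → ∃ H₀ : ℝ, ∀ H : ℝ, H₀ ≤ H →
      (((formsM n d H).filter (fun f => ¬ WeakApproxM m f)).card : ℝ) ≤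
        η * (formsM n d H).card := by
  have hcard : Fintype.card (Var n) = n 0 + 1 := by
    rw [Fintype.card_sigma, Fin.sum_univ_one, Fintype.card_fin]
  have hd2 : d 0 - 2 + 2 = d 0 := by omega
  have hforms : ∀ R : ℝ, Pool.Agent.Y716.Q.formsZ (Var n) (d 0) R = formsM n d R := by
    intro R
    ext f
    rw [Pool.Agent.Y716.Q.mem_formsZ, mem_formsM]
    unfold Pool.Agent.Y716.Q.IsF IsM
    rw [Pool.Agent.Y379.WA.deg_iff_one]
  constructor
  · obtain ⟨c, hc, H₀, h⟩ := Pool.Agent.Y716.Q.sol_positive (Var n) (by rw [hcard]; omega)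
      (d 0 - 2) (by rw [hcard]; omega)
    refine ⟨c, hc, H₀, fun H hH => ?_⟩
    have h1 := h H hH
    rw [hd2, hforms] at h1
    refine h1.trans ?_
    have h2 : (formsM n d H).filter (fun f => Pool.Agent.Y716.Q.Sol f) ⊆
        (formsM n d H).filter (fun f => ElsB f) := by
      intro f hf
      rw [Finset.mem_filter] at hf ⊢
      refine ⟨hf.1, ?_⟩
      rw [← Pool.Agent.Y379.WA.els_iff]
      obtain ⟨x, hx, hx2⟩ := hf.2
      have h3 : ∀ (K : Type) [Field K] [CharZero K],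
          (fun a => ((x a : ℤ) : K)) ≠ 0 ∧ aeval (fun a => ((x a : ℤ) : K)) f = 0 := by
        intro K _ _
        constructor
        · intro h4
          apply hx
          funext a
          have h5 : ((x a : ℤ) : K) = 0 := congrFun h4 a
          show x a = 0
          exact_mod_cast h5
        · have h4 := MvPolynomial.eval₂_comp_left (Int.castRingHom K) (RingHom.id ℤ) x f
          rw [RingHom.comp_id] at h4
          have h5 : eval₂ (RingHom.id ℤ) x f = 0 := hx2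
          rw [h5, map_zero] at h4
          rw [aeval_def]
          exact h4.symm
      exact ⟨⟨_, h3 ℝ⟩, fun p _ => ⟨_, h3 ℚ_[p]⟩⟩
    exact_mod_cast Finset.card_le_card h2
  · intro m hm η hη
    obtain ⟨H₀, h⟩ := Pool.Agent.Y716.Q.wa_exc (Var n) (by rw [hcard]; omega)
      (d 0 - 2) (by rw [hcard]; omega) hm hη
    refine ⟨H₀, fun H hH => ?_⟩
    have h1 := h H hH
    rw [hd2, hforms] at h1
    simp only [← Pool.Agent.Y379.WA.wa_iff]
    exact h1

theorem final {r : ℕ} (n d : Fin r → ℕ) (hn : ∀ i, 1 ≤ n i) (hd : ∀ i, 2 ≤ d i)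
    (hrc : ∃ i, d i ≤ n i) (hdim : 3 ≤ ∑ i, n i) : ∃ D : ℕ → ℕ, Tendsto D atTop atTop ∧
    Filter.Tendsto (fun H : ℕ =>
      (({f : MvPolynomial (Var n) ℤ | ((∀ s ∈ f.support, ∀ i : Fin r,
          ∑ j : Fin (n i + 1), s ⟨i, j⟩ = d i) ∧ ∀ s, |f.coeff s| ≤ (H : ℤ)) ∧ ElsB f ∧
          DegDense (D H) f} : Set _).ncard : ℝ) /
      (({f : MvPolynomial (Var n) ℤ | ((∀ s ∈ f.support, ∀ i : Fin r,
          ∑ j : Fin (n i + 1), s ⟨i, j⟩ = d i) ∧ ∀ s, |f.coeff s| ≤ (H : ℤ)) ∧ ElsB f} :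
          Set _).ncard : ℝ)) Filter.atTop (nhds 1) := by
  classical
  have key : (∃ c : ℝ, 0 < c ∧ ∃ H₀ : ℝ, ∀ H : ℝ, H₀ ≤ H → c * ((formsM n d H).card : ℝ) ≤
      (((formsM n d H).filter (fun f => ElsB f)).card : ℝ)) ∧
    ∀ m : ℕ, 1 ≤ m → ∀ η : ℝ, 0 < η → ∃ H₀ : ℝ, ∀ H : ℝ, H₀ ≤ H →
      (((formsM n d H).filter (fun f => ¬ WeakApproxM m f)).card : ℝ) ≤
        η * (formsM n d H).card := by
    obtain ⟨b, hb⟩ := hrc
    by_cases hr : 2 ≤ r
    · have hcl : ClassStmtM n d := class_theoremM n d b hr hd hn ((hd b).trans hb) hb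
      constructor
      · obtain ⟨c, hc0, H₁, hH₁⟩ := Pool.Agent.Y77.M9.solM_positive (by omega) hd hn hcl
        refine ⟨c, hc0, H₁, fun H hH => (hH₁ H hH).trans ?_⟩
        have : ((formsM n d H).filter (fun f => Pool.Agent.Y77.M9.SolM f)) ⊆
            ((formsM n d H).filter (fun f => ElsB f)) := by
          intro f hf
          rw [Finset.mem_filter] at hf ⊢
          exact ⟨hf.1, Pool.Agent.Y455.WAM.elsB_of_solM (mem_formsM.mp hf.1) hf.2⟩
        exact_mod_cast Finset.card_le_card this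
      · intro m hm η hη
        obtain ⟨H₀, h⟩ := Pool.Agent.Y455.WAM.wa_excM n d
          (Pool.Agent.Y448.M11.exc_target n d (by omega) hd hcl) (m := m) hm hη
        refine ⟨H₀, fun H hH => ?_⟩
        convert h H hH
    · have hr1 : r = 1 := by
        have := b.pos
        omega
      subst hr1
      have hb0 : b = 0 := Subsingleton.elim _ _
      subst hb0
      rw [Fin.sum_univ_one] at hdim
      exact inputs_one n d hdim (hd 0) hb
  exact diag _ fun D => tendsto_of key.1 (DegDense D)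
    (fun δ hδ => main hn hd (by omega) key.2 D hδ)

end Pool.ZD
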