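import Mathlib

/-!
# Density of rational points up to degree `D`: definitions
-/

set_option autoImplicit false

namespace Pool.ZD

open MvPolynomial

/-- the polynomial with the coefficients `c` -/
noncomputable def poly {N : ℕ} {E : Finset (Fin N →₀ ℕ)} (c : E → ℝ) : MvPolynomial (Fin N) ℝ :=
  ∑ m : E, monomial (m : Fin N →₀ ℕ) (c m)

/-- the polynomial `P` changes its sign at `y` -/
def IsSgn {N : ℕ} (P : MvPolynomial (Fin N) ℝ) (y : Fin N → ℝ) : Prop :=
  ∀ δ > 0, (∃ u : Fin N → ℝ, (∀ i, |u i - y i| < δ) ∧ 0 < eval u P) ∧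
    ∃ v : Fin N → ℝ, (∀ i, |v i - y i| < δ) ∧ eval v P < 0

/-- the coefficients of the nonnegative polynomials -/
def psd {N : ℕ} (E : Finset (Fin N →₀ ℕ)) : Set (E → ℝ) :=
  {c | ∀ y : Fin N → ℝ, 0 ≤ eval y (poly c)}

end Pool.ZD
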