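import Pool.Agent.Helper61.ZD.Defs

/-!
# The nonnegative polynomials
-/

set_option autoImplicit false

namespace Pool.ZD

open MvPolynomial

theorem eval_poly {N : ℕ} {E : Finset (Fin N →₀ ℕ)} (c : E → ℝ) (y : Fin N → ℝ) :
    eval y (poly c) = ∑ m : E, c m * eval y (monomial (m : Fin N →₀ ℕ) (1 : ℝ)) := by
  unfold poly
  rw [map_sum]
  refine Finset.sum_congr rfl fun m _ => ?_
  rw [eval_monomial, eval_monomial, one_mul]

theorem psd_basic {N : ℕ} (E : Finset (Fin N →₀ ℕ)) : IsClosed (psd E) ∧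
    MeasureTheory.volume (frontier (psd E)) = 0 := by
  constructor
  · have h1 : psd E = ⋂ y : Fin N → ℝ, {c | 0 ≤ eval y (poly c)} := by
      ext c
      simp [psd]
    rw [h1]
    refine isClosed_iInter fun y => ?_
    have h2 : Continuous fun c : E → ℝ => eval y (poly c) := by
      simp only [eval_poly]
      fun_prop
    exact isClosed_le continuous_const h2
  · apply Convex.addHaar_frontier
    intro a ha b hb s t hs ht hst y
    rw [eval_poly]
    have h1 := ha y
    have h2 := hb y
    rw [eval_poly] at h1 h2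
    have h3 : ∑ m : E, (s • a + t • b) m * eval y (monomial (m : Fin N →₀ ℕ) (1 : ℝ)) =
        s * (∑ m : E, a m * eval y (monomial (m : Fin N →₀ ℕ) (1 : ℝ))) +
        t * (∑ m : E, b m * eval y (monomial (m : Fin N →₀ ℕ) (1 : ℝ))) := by
      rw [Finset.mul_sum, Finset.mul_sum, ← Finset.sum_add_distrib]
      refine Finset.sum_congr rfl fun m _ => ?_
      simp only [Pi.add_apply, Pi.smul_apply, smul_eq_mul]
      ring
    rw [h3]
    positivity

theorem interior_bound {N : ℕ} (E : Finset (Fin N →₀ ℕ)) (c : E → ℝ) (hc : c ∈ interior (psd E)) :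
    ∃ ε : ℝ, 0 < ε ∧ ∀ m : E, ∀ y : Fin N → ℝ,
      ε * |eval y (monomial (m : Fin N →₀ ℕ) (1 : ℝ))| ≤ eval y (poly c) := by
  classical
  obtain ⟨r, hr, hball⟩ := Metric.isOpen_iff.1 isOpen_interior c hc
  have key : ∀ (m : E) (y : Fin N → ℝ) (t : ℝ), |t| < r →
      0 ≤ eval y (poly c) + t * eval y (monomial (m : Fin N →₀ ℕ) (1 : ℝ)) := by
    intro m y t ht
    have h1 : c + Pi.single m t ∈ Metric.ball c r := by
      rw [Metric.mem_ball, dist_eq_norm, add_sub_cancel_left, Pi.norm_single]
      exact ht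
    have h2 := interior_subset (hball h1) y
    rw [eval_poly] at h2 ⊢
    have h3 : ∑ m' : E, ((c + Pi.single m t : E → ℝ)) m' * eval y (monomial (m' : Fin N →₀ ℕ) (1 : ℝ)) =
        (∑ m' : E, c m' * eval y (monomial (m' : Fin N →₀ ℕ) (1 : ℝ))) +
        t * eval y (monomial (m : Fin N →₀ ℕ) (1 : ℝ)) := by
      simp only [Pi.add_apply, add_mul, Finset.sum_add_distrib]
      congr 1
      rw [Finset.sum_eq_single m]
      · rw [Pi.single_eq_same]
      · intro m' _ hm'
        rw [Pi.single_eq_of_ne hm', zero_mul]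
      · intro h
        exact absurd (Finset.mem_univ _) h
    rw [h3] at h2
    exact h2
  refine ⟨r / 2, by positivity, fun m y => ?_⟩
  have h1 := key m y (r / 2) (by rw [abs_of_pos (by positivity)]; linarith)
  have h2 := key m y (-(r / 2)) (by rw [abs_neg, abs_of_pos (by positivity)]; linarith)
  rcases abs_cases (eval y (monomial (m : Fin N →₀ ℕ) (1 : ℝ))) with ⟨h3, _⟩ | ⟨h3, _⟩
  · rw [h3]; linarith
  · rw [h3]; linarith

end Pool.ZD
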