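import Pool.Agent.Helper61.ZD.Defs

/-!
# Statements of the parts (swarm ZD)
-/

set_option autoImplicit false

namespace Pool.ZD

open MvPolynomial

namespace Spec

/-- NUL. The zeros of a polynomial are a null set. -/
theorem null_zeros {ι : Type} [Fintype ι] (Φ : MvPolynomial ι ℝ) (hΦ : Φ ≠ 0) :
    MeasureTheory.volume {c : ι → ℝ | eval c Φ = 0} = 0 := sorry

/-- LAT. Few lattice points near a compact null set. -/
theorem lattice {ι : Type} [Fintype ι] (A : Set (ι → ℝ)) (hA : IsCompact A)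
    (h0 : MeasureTheory.volume A = 0) (ε : ℝ) (hε : 0 < ε) :
    ∃ δ : ℝ, 0 < δ ∧ ∃ H₀ : ℕ, ∀ H : ℕ, H₀ ≤ H → ∀ S : Finset (ι → ℤ),
      (∀ z ∈ S, (fun i => (z i : ℝ) / H) ∈ Metric.thickening δ A) →
      (S.card : ℝ) ≤ ε * (2 * H + 1) ^ Fintype.card ι := sorry

/-- BEZ. Elimination of one variable. -/
theorem bezout {N : ℕ} (P g : MvPolynomial (Fin N) ℝ) (i : Fin N) (hP : Irreducible P)
    (hi : degreeOf i P ≠ 0) (hg : ¬ P ∣ g) :
    ∃ u v r : MvPolynomial (Fin N) ℝ, r ≠ 0 ∧ degreeOf i r = 0 ∧ u * P + v * g = r := sorry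

/-- ALG. An indefinite irreducible polynomial divides all polynomials which vanish at its changes
of sign. -/
theorem dvd_of_sgn {N : ℕ} (P g : MvPolynomial (Fin N) ℝ) (hP : Irreducible P)
    (h1 : ∃ a : Fin N → ℝ, 0 < eval a P) (h2 : ∃ b : Fin N → ℝ, eval b P < 0)
    (hg : ∀ y : Fin N → ℝ, IsSgn P y → eval y g = 0) : P ∣ g := sorry

/-- CPT. A uniform statement for compact sets of polynomials. -/
theorem compact {N : ℕ} (E : Finset (Fin N →₀ ℕ)) (m₀ : E)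
    (hm₀ : ∀ m ∈ E, m.sum (fun _ e => e) ≤ (m₀ : Fin N →₀ ℕ).sum fun _ e => e) (D : ℕ)
    (K : Set (E → ℝ)) (hK : IsCompact K) (hirr : ∀ c ∈ K, Irreducible (poly c))
    (hpos : ∀ c ∈ K, ∃ a : Fin N → ℝ, 0 < eval a (poly c))
    (hneg : ∀ c ∈ K, ∃ b : Fin N → ℝ, eval b (poly c) < 0) (hm : ∀ c ∈ K, c m₀ ≠ 0) :
    ∃ m : ℕ, 0 < m ∧ ∀ c ∈ K, ∀ g : MvPolynomial (Fin N) ℝ, g.totalDegree ≤ D →
      (∀ y : Fin N → ℝ, (∀ i, |y i| ≤ m) → eval y (poly c) = 0 →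
        ∃ x : Fin N → ℝ, (∀ i, |x i - y i| ≤ 1 / m) ∧ eval x (poly c) = 0 ∧ eval x g = 0) →
      poly c ∣ g := sorry

/-- PSD. The nonnegative polynomials. -/
theorem psd_basic {N : ℕ} (E : Finset (Fin N →₀ ℕ)) : IsClosed (psd E) ∧
    MeasureTheory.volume (frontier (psd E)) = 0 := sorry

/-- INT. The polynomials in the interior are larger than a multiple of each monomial. -/
theorem interior_bound {N : ℕ} (E : Finset (Fin N →₀ ℕ)) (c : E → ℝ) (hc : c ∈ interior (psd E)) :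
    ∃ ε : ℝ, 0 < ε ∧ ∀ m : E, ∀ y : Fin N → ℝ,
      ε * |eval y (monomial (m : Fin N →₀ ℕ) (1 : ℝ))| ≤ eval y (poly c) := sorry

end Spec

end Pool.ZD
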